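import Pool.Agent.H66PM.LO

/-!
# An effective bound for the number of vanishing sums of integers, second part
-/

set_option autoImplicit false

open Finset

namespace Pool.Agent.H66PM

section sym

variable {ι : Type} [Fintype ι]

/-- The number of vanishing sums, symmetric case. -/
lemma sym_count (δ : ι → ℤ) (e : ι ≃ ι) (he : ∀ p, δ (e p) = -δ p) (N : ℕ) :
    (N + 1 : ℝ) * ((univ.filter fun p => δ p ≠ 0).card : ℝ) *
      ((univ.filter fun g : Fin N → ι => ∑ k, δ (g k) = 0).card : ℝ) ^ 2 ≤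
      (Fintype.card ι : ℝ) ^ (2 * N + 1) := by
  classical
  set Z := (univ.filter fun g : Fin N → ι => ∑ k, δ (g k) = 0).card with hZ
  have h1 : ∀ A : Finset (Fin N), (univ.filter fun g : Fin N → ι =>
      ∑ k, (if k ∈ A then δ (g k) else -δ (g k)) = 0).card = Z := by
    intro A
    refine Finset.card_equiv (Equiv.piCongrRight fun k => if k ∈ A then Equiv.refl ι else e)
      fun g => ?_
    rw [mem_filter, mem_filter]
    have : ∀ k, δ ((Equiv.piCongrRight fun k => if k ∈ A then Equiv.refl ι else e) g k) =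
        if k ∈ A then δ (g k) else -δ (g k) := by
      intro k
      rw [Equiv.piCongrRight_apply, Pi.map_apply]
      by_cases hk : k ∈ A
      · rw [if_pos hk, if_pos hk]; rfl
      · rw [if_neg hk, if_neg hk, he]
    simp only [mem_univ, true_and, this]
  have h2 : (2 : ℝ) ^ N * Z = ∑ g : Fin N → ι, ((univ.filter fun A : Finset (Fin N) =>
      ∑ k, (if k ∈ A then δ (g k) else -δ (g k)) = 0).card : ℝ) := by
    have h3 : ∑ A : Finset (Fin N), (univ.filter fun g : Fin N → ι =>
        ∑ k, (if k ∈ A then δ (g k) else -δ (g k)) = 0).card =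
        ∑ g : Fin N → ι, (univ.filter fun A : Finset (Fin N) =>
        ∑ k, (if k ∈ A then δ (g k) else -δ (g k)) = 0).card :=
      Finset.sum_card_bipartiteAbove_eq_sum_card_bipartiteBelow _
    rw [Finset.sum_congr rfl fun A _ => h1 A, Finset.sum_const, Finset.card_univ,
      Fintype.card_finset, Fintype.card_fin, smul_eq_mul] at h3
    exact_mod_cast h3
  have h4 : (Z : ℝ) ≤ ∑ g : Fin N → ι,
      1 / √((univ.filter fun k => δ (g k) ≠ 0).card + 1 : ℝ) := by
    have h5 : (2 : ℝ) ^ N * Z ≤ 2 ^ N * ∑ g : Fin N → ι,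
        1 / √((univ.filter fun k => δ (g k) ≠ 0).card + 1 : ℝ) := by
      rw [h2, Finset.mul_sum]
      refine Finset.sum_le_sum fun g _ => ?_
      have h6 := signs (fun k => δ (g k))
      rw [Fintype.card_fin] at h6
      rw [mul_one_div, le_div_iff₀ (Real.sqrt_pos.2 (by positivity))]
      exact h6
    exact le_of_mul_le_mul_left h5 (by positivity)
  have h5 : (∑ g : Fin N → ι, 1 / √((univ.filter fun k => δ (g k) ≠ 0).card + 1 : ℝ)) ^ 2 ≤
      (Fintype.card ι : ℝ) ^ N *
        ∑ g : Fin N → ι, (1 : ℝ) / ((univ.filter fun k => δ (g k) ≠ 0).card + 1) := by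
    have h6 := Finset.sum_mul_sq_le_sq_mul_sq (univ : Finset (Fin N → ι)) (fun _ => (1 : ℝ))
      (fun g => 1 / √((univ.filter fun k => δ (g k) ≠ 0).card + 1 : ℝ))
    simp only [one_mul, one_pow, Finset.sum_const, Finset.card_univ, Fintype.card_fun,
      Fintype.card_fin, nsmul_eq_mul, mul_one] at h6
    refine h6.trans (le_of_eq ?_)
    push_cast
    congr 1
    refine Finset.sum_congr rfl fun g _ => ?_
    rw [div_pow, one_pow, Real.sq_sqrt (by positivity)]
  have h6 := average (fun p => δ p ≠ 0) N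
  have h7 : (Z : ℝ) ^ 2 ≤ (∑ g : Fin N → ι,
      1 / √((univ.filter fun k => δ (g k) ≠ 0).card + 1 : ℝ)) ^ 2 :=
    pow_le_pow_left₀ (by positivity) h4 2
  have h8 : (0 : ℝ) ≤ (N + 1 : ℝ) * ((univ.filter fun p => δ p ≠ 0).card : ℝ) := by positivity
  calc _ ≤ (N + 1 : ℝ) * ((univ.filter fun p => δ p ≠ 0).card : ℝ) *
        ((Fintype.card ι : ℝ) ^ N *
        ∑ g : Fin N → ι, (1 : ℝ) / ((univ.filter fun k => δ (g k) ≠ 0).card + 1)) :=
        mul_le_mul_of_nonneg_left (h7.trans h5) h8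
    _ = (Fintype.card ι : ℝ) ^ N * ((N + 1 : ℝ) * ((univ.filter fun p => δ p ≠ 0).card : ℝ) *
        ∑ g : Fin N → ι, (1 : ℝ) / ((univ.filter fun k => δ (g k) ≠ 0).card + 1)) := by ring
    _ ≤ (Fintype.card ι : ℝ) ^ N * (Fintype.card ι : ℝ) ^ (N + 1) :=
        mul_le_mul_of_nonneg_left h6 (by positivity)
    _ = _ := by rw [← pow_add]; congr 1; ring

/-- Sums over pairs dominate. -/
lemma pairs_count (δ : ι → ℤ) (n : ℕ) (c : ℤ) :
    (univ.filter fun g : (Fin n → ι) × (Fin n → ι) => ∑ k, δ (g.1 k) + ∑ k, δ (g.2 k) = c).card ≤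
      (univ.filter fun g : (Fin n → ι) × (Fin n → ι) => ∑ k, δ (g.1 k) - ∑ k, δ (g.2 k) = 0).card := by
  classical
  set S : (Fin n → ι) → ℤ := fun u => ∑ k, δ (u k) with hS
  set R : Finset ℤ := univ.image S with hR
  set r : ℤ → ℕ := fun x => (univ.filter fun u => S u = x).card with hr
  have hr0 : ∀ x, x ∉ R → r x = 0 := by
    intro x hx
    rw [hr]
    simp only
    rw [card_eq_zero, filter_eq_empty_iff]
    intro u _ hu
    exact hx (mem_image.2 ⟨u, mem_univ u, hu⟩)
  have h1 : ∀ f : ℤ → ℤ, (univ.filter fun g : (Fin n → ι) × (Fin n → ι) => S g.2 = f (S g.1)).card =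
      ∑ x ∈ R, r x * r (f x) := by
    intro f
    have h2 : (univ.filter fun g : (Fin n → ι) × (Fin n → ι) => S g.2 = f (S g.1)).card =
        ∑ u : Fin n → ι, r (f (S u)) := by
      rw [← univ_product_univ, card_filter, sum_product]
      refine Finset.sum_congr rfl fun u _ => ?_
      rw [hr]
      simp only
      rw [card_filter]
    rw [h2, ← Finset.sum_fiberwise_of_maps_to (g := S) (t := R) (fun u _ => mem_image_of_mem _ (mem_univ u))]
    refine Finset.sum_congr rfl fun x _ => ?_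
    rw [Finset.sum_congr rfl (g := fun _ => r (f x)) fun u hu => by rw [(mem_filter.1 hu).2],
      Finset.sum_const, smul_eq_mul]
  have h3 : (univ.filter fun g : (Fin n → ι) × (Fin n → ι) => ∑ k, δ (g.1 k) + ∑ k, δ (g.2 k) = c).card =
      ∑ x ∈ R, r x * r (c - x) := by
    rw [← h1 (fun x => c - x)]
    congr 1
    ext g
    simp only [mem_filter, mem_univ, true_and, hS]
    constructor <;> intro h <;> linarith
  have h4 : (univ.filter fun g : (Fin n → ι) × (Fin n → ι) => ∑ k, δ (g.1 k) - ∑ k, δ (g.2 k) = 0).card =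
      ∑ x ∈ R, r x * r x := by
    rw [← h1 (fun x => x)]
    congr 1
    ext g
    simp only [mem_filter, mem_univ, true_and, hS]
    constructor <;> intro h <;> linarith
  rw [h3, h4]
  have h5 : ∑ x ∈ R, r (c - x) * r (c - x) ≤ ∑ x ∈ R, r x * r x := by
    have h6 : ∑ x ∈ R, r (c - x) * r (c - x) = ∑ y ∈ R.image (fun x => c - x), r y * r y := by
      refine (Finset.sum_image (f := fun y => r y * r y) (g := fun x => c - x) (s := R) ?_).symm
      intro x _ y _ hxy
      have : c - x = c - y := hxy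
      linarith
    rw [h6]
    have h7 : ∑ y ∈ R.image (fun x => c - x), r y * r y =
        ∑ y ∈ (R.image (fun x => c - x)).filter (· ∈ R), r y * r y := by
      rw [Finset.sum_filter]
      refine Finset.sum_congr rfl fun y _ => ?_
      by_cases hy : y ∈ R
      · rw [if_pos hy]
      · rw [if_neg hy, hr0 y hy, mul_zero]
    rw [h7]
    refine Finset.sum_le_sum_of_subset fun y hy => (mem_filter.1 hy).2
  have h6 : 2 * ∑ x ∈ R, r x * r (c - x) ≤ ∑ x ∈ R, r x * r x + ∑ x ∈ R, r (c - x) * r (c - x) := by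
    rw [Finset.mul_sum, ← Finset.sum_add_distrib]
    refine Finset.sum_le_sum fun x _ => ?_
    have := two_mul_le_add_sq (r x) (r (c - x))
    nlinarith
  omega

end sym

section final

variable {ι : Type} [Fintype ι]

/-- The number of vanishing sums over pairs. -/
noncomputable def zp (δ : ι → ℤ) (n : ℕ) : ℕ :=
  (univ.filter fun g : (Fin n → ι) × (Fin n → ι) => ∑ k, δ (g.1 k) - ∑ k, δ (g.2 k) = 0).card

lemma even_count (δ : ι → ℤ) (n : ℕ) (c : ℤ) :
    (univ.filter fun g : Fin (n + n) → ι => ∑ k, δ (g k) = c).card ≤ zp δ n := by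
  classical
  refine le_trans (le_of_eq ?_) (pairs_count δ n c)
  refine (Finset.card_equiv (Fin.appendEquiv n n) fun g => ?_).symm
  rw [mem_filter, mem_filter]
  have : ∑ k, δ (Fin.appendEquiv n n g k) = ∑ k, δ (g.1 k) + ∑ k, δ (g.2 k) := by
    rw [Fin.sum_univ_add]
    congr 1
    · refine Finset.sum_congr rfl fun k _ => ?_
      exact congrArg δ (Fin.append_left g.1 g.2 k)
    · refine Finset.sum_congr rfl fun k _ => ?_
      exact congrArg δ (Fin.append_right g.1 g.2 k)
  simp only [mem_univ, true_and, this]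

lemma odd_count (δ : ι → ℤ) (n : ℕ) :
    (univ.filter fun g : Fin (n + n + 1) → ι => ∑ k, δ (g k) = 0).card ≤
      Fintype.card ι * zp δ n := by
  classical
  have h1 : (univ.filter fun g : Fin (n + n + 1) → ι => ∑ k, δ (g k) = 0).card =
      (univ.filter fun g : ι × (Fin (n + n) → ι) => δ g.1 + ∑ k, δ (g.2 k) = 0).card := by
    refine (Finset.card_equiv (Fin.insertNthEquiv (fun _ => ι) 0) fun g => ?_).symm
    rw [mem_filter, mem_filter]
    have : ∑ k, δ (Fin.insertNthEquiv (fun _ => ι) 0 g k) = δ g.1 + ∑ k, δ (g.2 k) := by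
      rw [Fin.sum_univ_succ]
      simp
    simp only [mem_univ, true_and, this]
  rw [h1, ← univ_product_univ, card_filter, sum_product]
  have h2 : ∀ p : ι, (∑ g : Fin (n + n) → ι, if δ p + ∑ k, δ (g k) = 0 then 1 else 0) ≤ zp δ n := by
    intro p
    rw [← card_filter]
    refine le_trans (le_of_eq ?_) (even_count δ n (-δ p))
    congr 1
    ext g
    simp only [mem_filter, mem_univ, true_and]
    constructor <;> intro h <;> linarith
  refine (Finset.sum_le_sum fun p _ => h2 p).trans ?_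
  rw [Finset.sum_const, Finset.card_univ, smul_eq_mul]

lemma zp_bound (δ : ι → ℤ) {i₀ p₀ : ι} (h : δ i₀ ≠ δ p₀) (n : ℕ) :
    (n + 1 : ℝ) * (zp δ n : ℝ) ^ 2 ≤ (Fintype.card ι : ℝ) ^ (4 * n + 1) := by
  classical
  have : Nonempty ι := ⟨p₀⟩
  have hD : (0 : ℝ) < Fintype.card ι := by exact_mod_cast Fintype.card_pos
  set δ' : ι × ι → ℤ := fun p => δ p.1 - δ p.2 with hδ'
  have hsym := sym_count δ' (Equiv.prodComm ι ι) (fun p => by
    change δ p.2 - δ p.1 = -(δ p.1 - δ p.2); ring) n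
  have hZ'' : zp δ n = (univ.filter fun g : Fin n → ι × ι => ∑ k, δ' (g k) = 0).card := by
    refine Finset.card_equiv (Equiv.arrowProdEquivProdArrow (Fin n) (fun _ => ι) (fun _ => ι)).symm
      fun g => ?_
    rw [mem_filter, mem_filter]
    have : ∑ k, δ' ((Equiv.arrowProdEquivProdArrow (Fin n) (fun _ => ι) (fun _ => ι)).symm g k) =
        ∑ k, δ (g.1 k) - ∑ k, δ (g.2 k) := by
      rw [← Finset.sum_sub_distrib]
      rfl
    simp only [mem_univ, true_and, this]
  rw [← hZ''] at hsym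
  have hw : Fintype.card ι ≤ (univ.filter fun p => δ' p ≠ 0).card := by
    have h1 : ∀ p : ι, ∃ j, δ p ≠ δ j := by
      intro p
      by_cases h' : δ p = δ p₀
      · exact ⟨i₀, fun h'' => h (by rw [← h'', h'])⟩
      · exact ⟨p₀, h'⟩
    choose f hf using h1
    rw [← Finset.card_univ]
    refine Finset.card_le_card_of_injOn (fun p => (p, f p)) (fun p _ => ?_) fun p _ p' _ h => ?_
    · rw [Finset.mem_coe, mem_filter]
      exact ⟨mem_univ _, sub_ne_zero.2 (hf p)⟩
    · exact congrArg Prod.fst h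
  have h2 : (n + 1 : ℝ) * (Fintype.card ι : ℝ) * (zp δ n : ℝ) ^ 2 ≤
      (Fintype.card (ι × ι) : ℝ) ^ (2 * n + 1) := by
    refine le_trans ?_ hsym
    have h3 : (Fintype.card ι : ℝ) ≤ ((univ.filter fun p => δ' p ≠ 0).card : ℝ) := by
      exact_mod_cast hw
    have h4 : (0 : ℝ) ≤ (zp δ n : ℝ) ^ 2 := by positivity
    exact mul_le_mul_of_nonneg_right (mul_le_mul_of_nonneg_left h3 (by positivity)) h4
  rw [Fintype.card_prod, Nat.cast_mul] at h2
  have h5 : ((Fintype.card ι : ℝ) * Fintype.card ι) ^ (2 * n + 1) =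
      (Fintype.card ι : ℝ) ^ (4 * n + 1) * Fintype.card ι := by
    rw [← pow_succ, ← pow_two, ← pow_mul]
    congr 1
    ring
  rw [h5] at h2
  refine le_of_mul_le_mul_right ?_ hD
  calc _ = (n + 1 : ℝ) * (Fintype.card ι : ℝ) * (zp δ n : ℝ) ^ 2 := by ring
    _ ≤ _ := h2

/-- The number of vanishing sums. -/
theorem count_bound (δ : ι → ℤ) (h0 : ∃ p, δ p ≠ 0) (N : ℕ) (hN : 0 < N) :
    (N + 1 : ℝ) * (Nat.card {g : Fin N → ι // ∑ k, δ (g k) = 0} : ℝ) ^ 2 ≤
      2 * (Fintype.card ι : ℝ) ^ (2 * N + 1) := by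
  classical
  rw [Nat.card_eq_fintype_card, Fintype.card_subtype]
  obtain ⟨p₀, hp₀⟩ := h0
  have : Nonempty ι := ⟨p₀⟩
  by_cases hd : ∀ i, δ i = δ p₀
  · have h1 : (univ.filter fun g : Fin N → ι => ∑ k, δ (g k) = 0) = ∅ := by
      rw [filter_eq_empty_iff]
      intro g _ h
      rw [Finset.sum_congr rfl fun k _ => hd (g k), Finset.sum_const, Finset.card_univ,
        Fintype.card_fin, nsmul_eq_mul] at h
      rcases mul_eq_zero.1 h with h | h
      · have : N = 0 := by exact_mod_cast h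
        omega
      · exact hp₀ h
    rw [h1, card_empty]
    have : (0 : ℝ) ≤ 2 * (Fintype.card ι : ℝ) ^ (2 * N + 1) := by positivity
    simp only [Nat.cast_zero, ne_eq, OfNat.ofNat_ne_zero, not_false_eq_true, zero_pow, mul_zero]
    exact this
  push Not at hd
  obtain ⟨i₀, hi₀⟩ := hd
  rcases Nat.even_or_odd' N with ⟨n, rfl | rfl⟩
  · rw [two_mul]
    have h1 := zp_bound δ hi₀ n
    have h2 := even_count δ n 0
    have h3 : ((univ.filter fun g : Fin (n + n) → ι => ∑ k, δ (g k) = 0).card : ℝ) ^ 2 ≤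
        (zp δ n : ℝ) ^ 2 := pow_le_pow_left₀ (by positivity) (by exact_mod_cast h2) 2
    have h4 : (0 : ℝ) ≤ (zp δ n : ℝ) ^ 2 := by positivity
    push_cast
    calc _ ≤ ((n : ℝ) + n + 1) * (zp δ n : ℝ) ^ 2 :=
          mul_le_mul_of_nonneg_left h3 (by positivity)
      _ ≤ 2 * (((n : ℝ) + 1) * (zp δ n : ℝ) ^ 2) := by nlinarith
      _ ≤ 2 * (Fintype.card ι : ℝ) ^ (4 * n + 1) := by linarith
      _ = _ := by congr 2; ring
  · rw [two_mul]
    have h1 := zp_bound δ hi₀ n
    have h2 := odd_count δ n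
    have h3 : ((univ.filter fun g : Fin (n + n + 1) → ι => ∑ k, δ (g k) = 0).card : ℝ) ^ 2 ≤
        ((Fintype.card ι : ℝ) * (zp δ n : ℝ)) ^ 2 :=
      pow_le_pow_left₀ (by positivity) (by exact_mod_cast h2) 2
    push_cast
    calc _ ≤ ((n : ℝ) + n + 1 + 1) * ((Fintype.card ι : ℝ) * (zp δ n : ℝ)) ^ 2 :=
          mul_le_mul_of_nonneg_left h3 (by positivity)
      _ = 2 * (Fintype.card ι : ℝ) ^ 2 * (((n : ℝ) + 1) * (zp δ n : ℝ) ^ 2) := by ring
      _ ≤ 2 * (Fintype.card ι : ℝ) ^ 2 * (Fintype.card ι : ℝ) ^ (4 * n + 1) :=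
          mul_le_mul_of_nonneg_left h1 (by positivity)
      _ = _ := by rw [mul_assoc, ← pow_add]; congr 2; ring

end final

end Pool.Agent.H66PM
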