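import Mathlib

/-!
# An effective bound for the number of vanishing sums of integers
-/

set_option autoImplicit false

open Finset

namespace Pool.Agent.H66PM

/-- The central binomial coefficient. -/
lemma central_sq (j : ℕ) : (Nat.centralBinom j) ^ 2 * (2 * j + 1) ≤ 16 ^ j := by
  induction j with
  | zero => simp
  | succ j ih =>
    have h := Nat.succ_mul_centralBinom_succ j
    have h1 : ((j + 1) * Nat.centralBinom (j + 1)) ^ 2 * (2 * j + 3) ≤
        (j + 1) ^ 2 * (16 * 16 ^ j) := by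
      rw [h]
      calc (2 * (2 * j + 1) * Nat.centralBinom j) ^ 2 * (2 * j + 3)
          = (Nat.centralBinom j ^ 2 * (2 * j + 1)) * (4 * (2 * j + 1) * (2 * j + 3)) := by ring
        _ ≤ 16 ^ j * (4 * (2 * j + 1) * (2 * j + 3)) := Nat.mul_le_mul_right _ ih
        _ ≤ 16 ^ j * (16 * (j + 1) ^ 2) := by
            apply Nat.mul_le_mul_left
            nlinarith
        _ = (j + 1) ^ 2 * (16 * 16 ^ j) := by ring
    have h2 : (j + 1) ^ 2 * (Nat.centralBinom (j + 1) ^ 2 * (2 * (j + 1) + 1)) ≤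
        (j + 1) ^ 2 * 16 ^ (j + 1) := by
      calc (j + 1) ^ 2 * (Nat.centralBinom (j + 1) ^ 2 * (2 * (j + 1) + 1))
          = ((j + 1) * Nat.centralBinom (j + 1)) ^ 2 * (2 * j + 3) := by ring
        _ ≤ (j + 1) ^ 2 * (16 * 16 ^ j) := h1
        _ = (j + 1) ^ 2 * 16 ^ (j + 1) := by ring
    exact Nat.le_of_mul_le_mul_left h2 (by positivity)

/-- The middle binomial coefficient. -/
lemma middle_sq (m : ℕ) : (m.choose (m / 2)) ^ 2 * (m + 1) ≤ 4 ^ m := by
  obtain ⟨j, rfl | rfl⟩ := Nat.even_or_odd' m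
  · have h1 : 2 * j / 2 = j := by omega
    rw [h1]
    have h := central_sq j
    rw [Nat.centralBinom_eq_two_mul_choose] at h
    calc _ ≤ 16 ^ j := h
      _ = 4 ^ (2 * j) := by rw [pow_mul]; norm_num
  · have h1 : (2 * j + 1) / 2 = j := by omega
    rw [h1]
    have h := central_sq (j + 1)
    have h2 : Nat.centralBinom (j + 1) = 2 * (2 * j + 1).choose j := by
      rw [Nat.centralBinom_eq_two_mul_choose]
      have h3 : 2 * (j + 1) = (2 * j + 1) + 1 := by ring
      rw [h3, Nat.choose_succ_succ]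
      have h4 : (2 * j + 1).choose (j + 1) = (2 * j + 1).choose j := by
        rw [← Nat.choose_symm_of_eq_add (show 2 * j + 1 = (j + 1) + j by ring)]
      rw [h4]; ring
    rw [h2] at h
    have h5 : ((2 * j + 1).choose j) ^ 2 * (2 * j + 1 + 1) * 4 ≤ 4 ^ (2 * j + 1) * 4 := by
      calc ((2 * j + 1).choose j) ^ 2 * (2 * j + 1 + 1) * 4
          ≤ (2 * (2 * j + 1).choose j) ^ 2 * (2 * (j + 1) + 1) := by
            have : ((2 * j + 1).choose j) ^ 2 * (2 * j + 1 + 1) * 4 =
              (2 * (2 * j + 1).choose j) ^ 2 * (2 * j + 2) := by ring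
            rw [this]
            apply Nat.mul_le_mul_left
            omega
        _ ≤ 16 ^ (j + 1) := h
        _ = 4 ^ (2 * j + 1) * 4 := by
            rw [show (16 : ℕ) = 4 ^ 2 by norm_num, ← pow_mul, ← pow_succ]
            congr 1
    exact Nat.le_of_mul_le_mul_right h5 (by norm_num)

/-- **Littlewood-Offord-Erdős**: sums with signs. -/
lemma signs {κ : Type} [Fintype κ] [DecidableEq κ] (δ : κ → ℤ) :
    ((univ.filter fun A : Finset κ => ∑ k, (if k ∈ A then δ k else -δ k) = 0).card : ℝ) *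
      √((univ.filter fun k => δ k ≠ 0).card + 1 : ℝ) ≤ 2 ^ Fintype.card κ := by
  classical
  set 𝒜 := univ.filter fun A : Finset κ => ∑ k, (if k ∈ A then δ k else -δ k) = 0 with h𝒜
  let B : Finset κ → Finset {k // δ k ≠ 0} := fun A => univ.filter fun k => (k.1 ∈ A ↔ 0 < δ k.1)
  let C : Finset κ → Finset {k // ¬ δ k ≠ 0} := fun A => univ.filter fun k => k.1 ∈ A
  have hinj : Function.Injective fun A : Finset κ => (B A, C A) := by
    intro A A' h
    rw [Prod.mk.injEq] at h
    ext k
    by_cases hk : δ k ≠ 0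
    · have := Finset.ext_iff.1 h.1 ⟨k, hk⟩
      simp only [B, mem_filter, mem_univ, true_and] at this
      tauto
    · have := Finset.ext_iff.1 h.2 ⟨k, hk⟩
      simpa only [C, mem_filter, mem_univ, true_and] using this
  have hS : ∀ A : Finset κ, ∑ k, (if k ∈ A then δ k else -δ k) =
      ∑ k : {k // δ k ≠ 0}, (if k ∈ B A then |δ k| else -|δ k|) := by
    intro A
    have h1 : ∑ k ∈ univ.filter (fun k => δ k ≠ 0),
        (if (k ∈ A ↔ 0 < δ k) then |δ k| else -|δ k|) =
        ∑ k : {k // δ k ≠ 0}, (if (k.1 ∈ A ↔ 0 < δ k.1) then |δ k.1| else -|δ k.1|) :=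
      Finset.sum_subtype (F := inferInstance) _ (by simp) _
    have h2 : (∑ k : {k // δ k ≠ 0}, (if k ∈ B A then |δ k| else -|δ k|)) =
        ∑ k : {k // δ k ≠ 0}, (if (k.1 ∈ A ↔ 0 < δ k.1) then |δ k.1| else -|δ k.1|) := by
      refine Finset.sum_congr rfl fun k _ => ?_
      simp only [B, mem_filter, mem_univ, true_and]
    rw [h2, ← h1, Finset.sum_filter]
    refine Finset.sum_congr rfl fun k _ => ?_
    by_cases hk : δ k = 0
    · simp [hk]
    · rcases lt_or_gt_of_ne hk with h | h
      · rw [abs_of_neg h]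
        by_cases hA : k ∈ A <;> simp [hk, hA, h.not_gt]
      · rw [abs_of_pos h]
        by_cases hA : k ∈ A <;> simp [hk, hA, h]
  have hanti : IsAntichain (· ⊆ ·) ((𝒜.image B : Finset (Finset {k // δ k ≠ 0})) :
      Set (Finset {k // δ k ≠ 0})) := by
    intro b hb b' hb' hne hsub
    rw [Finset.mem_coe, Finset.mem_image] at hb hb'
    obtain ⟨A, hA, rfl⟩ := hb
    obtain ⟨A', hA', rfl⟩ := hb'
    rw [h𝒜, mem_filter, hS] at hA hA'
    have hlt : ∑ k : {k // δ k ≠ 0}, (if k ∈ B A then |δ k| else -|δ k|) <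
        ∑ k : {k // δ k ≠ 0}, (if k ∈ B A' then |δ k| else -|δ k|) := by
      obtain ⟨k, hk, hk'⟩ := Finset.exists_of_ssubset (lt_of_le_of_ne hsub hne)
      refine Finset.sum_lt_sum (fun i _ => ?_) ⟨k, mem_univ k, ?_⟩
      · by_cases h1 : i ∈ B A
        · rw [if_pos h1, if_pos (hsub h1)]
        · rw [if_neg h1]
          have := abs_nonneg (δ i)
          split_ifs <;> linarith
      · rw [if_pos hk, if_neg hk']
        have := abs_pos.2 k.2
        linarith
    rw [hA.2, hA'.2] at hlt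
    exact lt_irrefl _ hlt
  have hsp := hanti.sperner
  have hcard : 𝒜.card ≤ (𝒜.image B).card * 2 ^ Fintype.card {k // ¬ δ k ≠ 0} := by
    have h1 : 𝒜.card = (𝒜.image fun A => (B A, C A)).card := (card_image_of_injective _ hinj).symm
    rw [h1]
    have h2 : (𝒜.image fun A => (B A, C A)) ⊆ (𝒜.image B) ×ˢ (univ : Finset (Finset _)) := by
      intro x hx
      rw [mem_image] at hx
      obtain ⟨A, hA, rfl⟩ := hx
      rw [mem_product]
      exact ⟨mem_image_of_mem _ hA, mem_univ _⟩
    refine (card_le_card h2).trans ?_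
    rw [card_product, card_univ, Fintype.card_finset]
  have hsum : Fintype.card {k // δ k ≠ 0} + Fintype.card {k // ¬ δ k ≠ 0} = Fintype.card κ := by
    rw [← Fintype.card_sum]
    exact Fintype.card_congr (Equiv.sumCompl _)
  have hm : (univ.filter fun k => δ k ≠ 0).card = Fintype.card {k // δ k ≠ 0} :=
    (Fintype.card_subtype _).symm
  set m := Fintype.card {k // δ k ≠ 0} with hmdef
  rw [hm]
  have h1 : ((𝒜.card : ℕ) : ℝ) ≤ (m.choose (m / 2) : ℝ) * 2 ^ Fintype.card {k // ¬ δ k ≠ 0} := by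
    have := hcard.trans (Nat.mul_le_mul_right _ hsp)
    exact_mod_cast this
  have h2 : (m.choose (m / 2) : ℝ) * √((m : ℝ) + 1) ≤ 2 ^ m := by
    have h3 := middle_sq m
    have h4 : ((m.choose (m / 2) : ℝ)) ^ 2 * ((m : ℝ) + 1) ≤ 4 ^ m := by exact_mod_cast h3
    have h5 : (4 : ℝ) ^ m = (2 ^ m) ^ 2 := by rw [← pow_mul, mul_comm, pow_mul]; norm_num
    refine le_of_sq_le_sq ?_ (by positivity)
    rw [mul_pow, Real.sq_sqrt (by positivity), ← h5]
    exact h4
  calc (𝒜.card : ℝ) * √((m : ℝ) + 1)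
      ≤ (m.choose (m / 2) : ℝ) * 2 ^ Fintype.card {k // ¬ δ k ≠ 0} * √((m : ℝ) + 1) :=
        mul_le_mul_of_nonneg_right h1 (Real.sqrt_nonneg _)
    _ = ((m.choose (m / 2) : ℝ) * √((m : ℝ) + 1)) * 2 ^ Fintype.card {k // ¬ δ k ≠ 0} := by ring
    _ ≤ 2 ^ m * 2 ^ Fintype.card {k // ¬ δ k ≠ 0} := mul_le_mul_of_nonneg_right h2 (by positivity)
    _ = 2 ^ Fintype.card κ := by rw [← pow_add, hsum]

/-- The average of `1 / (m + 1)`. -/
lemma average {ι : Type} [Fintype ι] (P : ι → Prop) [DecidablePred P] (N : ℕ) :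
    (N + 1 : ℝ) * ((univ.filter P).card : ℝ) *
      (∑ g : Fin N → ι, (1 : ℝ) / ((univ.filter fun k => P (g k)).card + 1)) ≤
      (Fintype.card ι : ℝ) ^ (N + 1) := by
  classical
  -- the sum over `h : Fin (N + 1) → ι` and the `k` with `P (h k)` of `1 / m(h)`
  have h1 : ∑ h : Fin (N + 1) → ι, ∑ k : Fin (N + 1),
      (if P (h k) then (1 : ℝ) / ((univ.filter fun k => P (h k)).card) else 0) ≤
      (Fintype.card ι : ℝ) ^ (N + 1) := by
    have h2 : ∀ h : Fin (N + 1) → ι, ∑ k : Fin (N + 1),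
        (if P (h k) then (1 : ℝ) / ((univ.filter fun k => P (h k)).card) else 0) ≤ 1 := by
      intro h
      rw [← Finset.sum_filter, Finset.sum_const, nsmul_eq_mul, mul_one_div]
      exact div_self_le_one _
    refine (Finset.sum_le_sum fun h _ => h2 h).trans ?_
    rw [Finset.sum_const, Finset.card_univ, Fintype.card_fun, Fintype.card_fin, nsmul_eq_mul,
      mul_one]
    push_cast
    exact le_rfl
  refine le_trans (le_of_eq ?_) h1
  rw [Finset.sum_comm]
  have h2 : ∀ k : Fin (N + 1), ∑ h : Fin (N + 1) → ι,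
      (if P (h k) then (1 : ℝ) / ((univ.filter fun k => P (h k)).card) else 0) =
      ((univ.filter P).card : ℝ) *
        (∑ g : Fin N → ι, (1 : ℝ) / ((univ.filter fun k => P (g k)).card + 1)) := by
    intro k
    rw [← (Fin.insertNthEquiv (fun _ => ι) k).sum_comp, Fintype.sum_prod_type]
    have h3 : ∀ p : ι, ∑ g : Fin N → ι,
        (if P ((Fin.insertNthEquiv (fun _ => ι) k) (p, g) k) then (1 : ℝ) /
          ((univ.filter fun j => P ((Fin.insertNthEquiv (fun _ => ι) k) (p, g) j)).card) else 0) =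
        if P p then ∑ g : Fin N → ι, (1 : ℝ) / ((univ.filter fun k => P (g k)).card + 1) else 0 := by
      intro p
      by_cases hp : P p
      · rw [if_pos hp]
        refine Finset.sum_congr rfl fun g _ => ?_
        rw [Fin.insertNthEquiv_apply, Fin.insertNth_apply_same, if_pos hp]
        congr 1
        have h4 : (univ.filter fun j => P ((Fin.insertNthEquiv (fun _ => ι) k) (p, g) j)) =
            insert k ((univ.filter fun i => P (g i)).map k.succAboveEmb) := by
          ext j
          rw [mem_filter, mem_insert, mem_map]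
          refine Fin.succAboveCases k ?_ (fun i => ?_) j
          · simp [hp]
          · simp [Fin.succAbove_ne]
        rw [h4, card_insert_of_notMem, card_map]
        · push_cast; rfl
        · rw [mem_map]
          rintro ⟨i, -, hi⟩
          exact Fin.succAbove_ne k i hi
      · rw [if_neg hp]
        refine Finset.sum_eq_zero fun g _ => ?_
        rw [Fin.insertNthEquiv_apply, Fin.insertNth_apply_same, if_neg hp]
    rw [Finset.sum_congr rfl fun p _ => h3 p, ← Finset.sum_filter, Finset.sum_const, nsmul_eq_mul]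
  rw [Finset.sum_congr rfl fun k _ => h2 k, Finset.sum_const, Finset.card_univ, Fintype.card_fin,
    nsmul_eq_mul]
  push_cast
  ring

end Pool.Agent.H66PM
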